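import Pool.Agent.H958.LR.Stm

/-!
# Project LR, piece LAW: finitely many independent Bernoulli variables (helper603)
-/

namespace Pool.Agent.H603.LR

open MeasureTheory ProbabilityTheory Set Filter Pool.Agent.H958.LR
open scoped ENNReal NNReal Nat Topology

section general

variable {κ : Type} [Fintype κ] [DecidableEq κ]

/-- The weight of a configuration. -/
noncomputable def wgt (P : κ → ℝ) (η : κ → Bool) : ℝ :=
  ∏ i, if η i = true then P i else 1 - P i

/-- The expectation of `f`. -/
noncomputable def Ex (P : κ → ℝ) (f : (κ → Bool) → ℝ) : ℝ := ∑ η, wgt P η * f η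

/-- The weight without the index `j`. -/
noncomputable def rst (P : κ → ℝ) (j : κ) (η : κ → Bool) : ℝ :=
  ∏ i ∈ Finset.univ.erase j, if η i = true then P i else 1 - P i

theorem wgt_eq (P : κ → ℝ) (j : κ) (η : κ → Bool) :
    wgt P η = (if η j = true then P j else 1 - P j) * rst P j η :=
  (Finset.mul_prod_erase Finset.univ (fun i => if η i = true then P i else 1 - P i)
    (Finset.mem_univ j)).symm

theorem rst_update (P : κ → ℝ) (j : κ) (b : ℝ) (η : κ → Bool) :
    rst (Function.update P j b) j η = rst P j η := by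
  unfold rst
  refine Finset.prod_congr rfl fun i hi => ?_
  rw [Function.update_of_ne (Finset.ne_of_mem_erase hi)]

theorem rst_update' (P : κ → ℝ) (j : κ) (b : Bool) (η : κ → Bool) :
    rst P j (Function.update η j b) = rst P j η := by
  unfold rst
  refine Finset.prod_congr rfl fun i hi => ?_
  rw [Function.update_of_ne (Finset.ne_of_mem_erase hi)]

theorem rst_nonneg {P : κ → ℝ} (hP : ∀ i, 0 ≤ P i ∧ P i ≤ 1) (j : κ) (η : κ → Bool) :
    0 ≤ rst P j η := by
  refine Finset.prod_nonneg fun i _ => ?_
  split_ifs
  · exact (hP i).1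
  · exact sub_nonneg.mpr (hP i).2

/-- Increasing functions. -/
def Mon (f : (κ → Bool) → ℝ) : Prop :=
  ∀ η η' : κ → Bool, (∀ i, η i = true → η' i = true) → f η ≤ f η'

/-- The flip of the coordinate `j`. -/
def flp (j : κ) : (κ → Bool) ≃ (κ → Bool) where
  toFun η := Function.update η j (!η j)
  invFun η := Function.update η j (!η j)
  left_inv η := by simp
  right_inv η := by simp

theorem Ex_update_mono (P : κ → ℝ) (j : κ) (b : ℝ) (hP : ∀ i, 0 ≤ P i ∧ P i ≤ 1)
    (hb : P j ≤ b) {f : (κ → Bool) → ℝ} (hf : Mon f) :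
    Ex P f ≤ Ex (Function.update P j b) f := by
  set g : (κ → Bool) → ℝ := fun η => (if η j = true then 1 else -1) * rst P j η * f η with hg
  have h1 : Ex (Function.update P j b) f - Ex P f = (b - P j) * ∑ η, g η := by
    unfold Ex
    rw [← Finset.sum_sub_distrib, Finset.mul_sum]
    refine Finset.sum_congr rfl fun η _ => ?_
    rw [wgt_eq _ j, wgt_eq P j, rst_update, Function.update_self, hg]
    dsimp only
    split_ifs <;> ring
  have h2 : ∑ η, g η = ∑ η, g (flp j η) := (Equiv.sum_comp (flp j) g).symm
  have h3 : 0 ≤ ∑ η, (g η + g (flp j η)) := by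
    refine Finset.sum_nonneg fun η _ => ?_
    have e1 : rst P j (flp j η) = rst P j η := rst_update' P j _ η
    have e2 : (flp j η) j = !η j := Function.update_self _ _ _
    have h0 := rst_nonneg hP j η
    rw [hg]
    dsimp only
    rw [e1, e2]
    cases hη : η j with
    | true =>
      have h4 : f (flp j η) ≤ f η := by
        refine hf _ _ fun i hi => ?_
        by_cases hij : i = j
        · rw [hij, hη]
        · have : (flp j η) i = η i := Function.update_of_ne hij _ _
          rwa [this] at hi
      simp only [Bool.not_true, if_true, Bool.false_eq_true, if_false]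
      nlinarith
    | false =>
      have h4 : f η ≤ f (flp j η) := by
        refine hf _ _ fun i hi => ?_
        by_cases hij : i = j
        · rw [hij, e2, hη]; rfl
        · have : (flp j η) i = η i := Function.update_of_ne hij _ _
          rwa [this]
      simp only [Bool.not_false, if_true, Bool.false_eq_true, if_false]
      nlinarith
  rw [Finset.sum_add_distrib, ← h2] at h3
  have h5 : 0 ≤ ∑ η, g η := by linarith
  have h6 := mul_nonneg (sub_nonneg.mpr hb) h5
  linarith

theorem Ex_mono {P P' : κ → ℝ} (hP : ∀ i, 0 ≤ P i ∧ P i ≤ P' i ∧ P' i ≤ 1)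
    {f : (κ → Bool) → ℝ} (hf : Mon f) : Ex P f ≤ Ex P' f := by
  have key : ∀ s : Finset κ, Ex P f ≤ Ex (fun i => if i ∈ s then P' i else P i) f := by
    intro s
    induction s using Finset.induction_on with
    | empty => simp
    | insert j s hj ih =>
      refine ih.trans ?_
      have e : (fun i => if i ∈ insert j s then P' i else P i) =
          Function.update (fun i => if i ∈ s then P' i else P i) j (P' j) := by
        funext i
        by_cases hij : i = j
        · subst hij; simp
        · rw [Function.update_of_ne hij]; simp [hij]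
      rw [e]
      refine Ex_update_mono _ j (P' j) (fun i => ?_) ?_ hf
      · have h := hP i
        split_ifs
        · exact ⟨h.1.trans h.2.1, h.2.2⟩
        · exact ⟨h.1, h.2.1.trans h.2.2⟩
      · rw [if_neg hj]
        exact (hP j).2.1
  have := key Finset.univ
  simpa using this

/-- The law of finitely many independent Bernoulli variables. -/
theorem law {Ω : Type} [MeasurableSpace Ω] (P : Measure Ω) [IsProbabilityMeasure P]
    (Y : κ → Ω → Bool) (w : κ → ℝ) (hY : ∀ i, Measurable (Y i)) (hi : iIndepFun Y P)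
    (hw : ∀ i, 0 ≤ w i ∧ w i ≤ 1) (hl : ∀ i, P {ω | Y i ω = true} = ENNReal.ofReal (w i))
    (A : (κ → Bool) → Prop) [DecidablePred A] :
    P {ω | A fun i => Y i ω} = ENNReal.ofReal (Ex w fun η => if A η then 1 else 0) := by
  have hone : ∀ η : κ → Bool, P {ω | (fun i => Y i ω) = η} = ENNReal.ofReal (wgt w η) := by
    intro η
    have e1 : {ω | (fun i => Y i ω) = η} = ⋂ i ∈ (Finset.univ : Finset κ), Y i ⁻¹' {η i} := by
      ext ω
      simp only [mem_ofPred_eq, mem_iInter, mem_preimage, mem_singleton_iff, Finset.mem_univ,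
        forall_true_left]
      exact funext_iff
    rw [e1, hi.measure_inter_preimage_eq_mul Finset.univ (fun i _ => measurableSet_singleton _)]
    unfold wgt
    rw [ENNReal.ofReal_prod_of_nonneg]
    · refine Finset.prod_congr rfl fun i _ => ?_
      cases hη : η i with
      | true =>
        rw [if_pos rfl, ← hl i]
        rfl
      | false =>
        rw [if_neg (by simp), ENNReal.ofReal_sub _ (hw i).1, ENNReal.ofReal_one, ← hl i]
        have e2 : Y i ⁻¹' {false} = {ω | Y i ω = true}ᶜ := by
          ext ω; simp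
        rw [e2, measure_compl _ (measure_ne_top _ _), measure_univ]
        exact (hY i) (measurableSet_singleton true)
    · intro i _
      split_ifs
      · exact (hw i).1
      · exact sub_nonneg.mpr (hw i).2
  have e3 : {ω | A fun i => Y i ω} =
      ⋃ η ∈ (Finset.univ.filter A : Finset (κ → Bool)), {ω | (fun i => Y i ω) = η} := by
    ext ω; simp
  have hwn : ∀ η, 0 ≤ wgt w η := fun η => Finset.prod_nonneg fun i _ => by
    split_ifs
    · exact (hw i).1
    · exact sub_nonneg.mpr (hw i).2
  rw [e3, measure_biUnion_finset]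
  · unfold Ex
    rw [Finset.sum_congr rfl fun η _ => hone η, ← ENNReal.ofReal_sum_of_nonneg fun η _ => hwn η,
      Finset.sum_filter]
    congr 1
    refine Finset.sum_congr rfl fun η _ => ?_
    beta_reduce
    by_cases hη : A η
    · rw [if_pos hη, if_pos hη, mul_one]
    · rw [if_neg hη, if_neg hη, mul_zero]
  · intro η _ η' _ hne
    rw [Function.onFun, Set.disjoint_left]
    intro ω h1 h2
    exact hne (h1.symm.trans h2)
  · intro η _
    have e4 : {ω | (fun i => Y i ω) = η} = (fun ω i => Y i ω) ⁻¹' {η} := rfl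
    rw [e4]
    exact (measurable_pi_lambda _ hY) (measurableSet_singleton η)

end general

variable {Λ : Type} [Fintype Λ] [DecidableEq Λ]

open Classical in
theorem EP_eq (n : ℕ) (p : Sym2 Λ ⊕ Λ → ℝ) (A : Win Λ → Prop) :
    EP n p A = Ex (fun i : (Sym2 Λ ⊕ Λ) × Fin n => p i.1) fun η => if A (ext n η) then 1 else 0 := by
  unfold EP Ex wgt
  rfl

omit [Fintype Λ] [DecidableEq Λ] in
open Classical in
theorem mon_of_incr {n : ℕ} {A : Win Λ → Prop} (hA : Incr A) :
    Mon (fun η : (Sym2 Λ ⊕ Λ) × Fin n → Bool => if A (ext n η) then (1 : ℝ) else 0) := by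
  intro η η' h
  have h1 : A (ext n η) → A (ext n η') := by
    refine hA _ _ fun i hi => ?_
    unfold H958.LR.ext at hi ⊢
    split_ifs at hi ⊢
    exact h _ hi
  dsimp only
  by_cases h2 : A (ext n η)
  · rw [if_pos h2, if_pos (h1 h2)]
  · rw [if_neg h2]
    split_ifs <;> norm_num

theorem s_law : S_LAW := by
  classical
  refine ⟨?_, ?_, ?_, ?_⟩
  · intro Λ _ _ n Ω _ P _ Y p hY hi hp hl A
    rw [EP_eq]
    exact law P Y (fun i => p i.1) hY hi (fun i => hp i.1) hl (fun η => A (ext n η))
  · intro Λ _ _ n Ω _ P _ Y p hY hi hp hl A hA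
    set w : (Sym2 Λ ⊕ Λ) × Fin n → ℝ := fun i => (P {ω | Y i ω = true}).toReal with hw
    have hw1 : ∀ i, P {ω | Y i ω = true} = ENNReal.ofReal (w i) := fun i =>
      (ENNReal.ofReal_toReal (measure_ne_top _ _)).symm
    have hw2 : ∀ i, 0 ≤ w i ∧ w i ≤ p i.1 ∧ p i.1 ≤ 1 := by
      intro i
      refine ⟨ENNReal.toReal_nonneg, ?_, (hp i.1).2⟩
      have := ENNReal.toReal_mono ENNReal.ofReal_ne_top (hl i)
      rwa [ENNReal.toReal_ofReal (hp i.1).1] at this
    have h1 := law P Y w hY hi (fun i => ⟨(hw2 i).1, (hw2 i).2.1.trans (hw2 i).2.2⟩) hw1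
      (fun η => A (ext n η))
    rw [h1, EP_eq]
    refine ENNReal.ofReal_le_ofReal ?_
    exact Ex_mono hw2 (mon_of_incr hA)
  · intro Λ _ _ n p p' hp A hA
    rw [EP_eq, EP_eq]
    exact Ex_mono (fun i => hp i.1) (mon_of_incr hA)
  · intro Λ _ _ n A
    unfold EP
    refine continuous_finsetSum _ fun η _ => ?_
    refine Continuous.mul (continuous_finsetProd _ fun i _ => ?_) continuous_const
    by_cases h : η i = true
    · simp only [h, if_true]
      exact continuous_apply _
    · simp only [h]
      exact continuous_const.sub (continuous_apply _)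

end Pool.Agent.H603.LR

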